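import Pool.Agent.MP_61ef33_al.R.All

namespace Pool.Agent.MP_61ef33_al.Old.B_Threshold

open Polynomial Pool.Agent.MP_61ef33_al

theorem result (c : ℝ) (hc : 0 ≤ c ^ 3 + 2 * c ^ 2 + 2 * c + 2) :
    (c ^ 3 + 2 * c ^ 2 + 2 * c + 2 = 0 →
      (postcrit (X ^ 2 + C (c : ℂ))).Finite ∧ (0 : ℂ) ∉ postcrit (X ^ 2 + C (c : ℂ))) ∧
    ((postcrit (X ^ 2 + C (c : ℂ))).Finite → (0 : ℂ) ∉ postcrit (X ^ 2 + C (c : ℂ)) →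
      Renormalizable (c : ℂ) ∧ ∀ t ∉ postcrit (X ^ 2 + C (c : ℂ)),
        (IntermediateGrowth (IMG (X ^ 2 + C (c : ℂ)) t) ↔ c ^ 3 + 2 * c ^ 2 + 2 * c + 2 = 0)) := by
  refine ⟨fun h => ⟨(R.thresh_all.1 c h).1, (R.thresh_all.1 c h).2.1⟩, fun h1 h2 => ?_⟩
  rcases hc.eq_or_lt with h | h
  · obtain ⟨-, -, a, b⟩ := R.thresh_all.1 c h.symm
    exact ⟨a, fun t ht => ⟨fun _ => h.symm, fun _ => b t ht⟩⟩
  · obtain ⟨a, b⟩ := R.thresh_all.2 c h h1 h2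
    exact ⟨a, fun t ht => ⟨fun g => absurd g (b t ht).2, fun e => absurd e h.ne'⟩⟩

end Pool.Agent.MP_61ef33_al.Old.B_Threshold
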