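import Pool.Agent.MP_61ef33_al.Air.All

namespace Pool.Agent.MP_61ef33_al.Old.D_Airplane

open Polynomial Pool.Agent.MP_61ef33_al

theorem result (n : ℕ) (hn : 3 ≤ n) :
    (∃ c : ℝ, (fun x : ℝ => x ^ 2 + c)^[n] 0 = 0 ∧
      ∀ j, 2 ≤ j → j < n → 0 < (fun x : ℝ => x ^ 2 + c)^[j] 0) ∧
    ∀ c : ℝ, (fun x : ℝ => x ^ 2 + c)^[n] 0 = 0 →
      (∀ j, 2 ≤ j → j < n → 0 < (fun x : ℝ => x ^ 2 + c)^[j] 0) →
      (postcrit (X ^ 2 + C (c : ℂ))).Finite ∧ ∀ t ∉ postcrit (X ^ 2 + C (c : ℂ)),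
        IntermediateGrowth (IMG (X ^ 2 + C (c : ℂ)) t) := by
  refine ⟨(Air.sOrd n hn).1, fun c h1 h2 => ⟨?_, fun t ht => Air.air_all hn ⟨h1, h2⟩ ht⟩⟩
  obtain ⟨p, hp⟩ := (Air.sOrd n hn).2 c ⟨h1, h2⟩
  refine ((Set.finite_Iic n).image fun i => (p i : ℂ)).subset fun z hz => ?_
  by_contra h
  exact (Air.post_Link hp z).2 (fun i _ hi e => h ⟨i, hi, e.symm⟩) hz

end Pool.Agent.MP_61ef33_al.Old.D_Airplane
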