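import Pool.Agent.MP_61ef33_al.Ctr.All
import Pool.Agent.MP_61ef33_al.Air.Ord
import Pool.Agent.MP_61ef33_al.Defs5

namespace Pool.Agent.MP_61ef33_al.Old.D_Centers

open Polynomial Pool.Agent.MP_61ef33_al

theorem result :
    (∀ n : ℕ, 3 ≤ n → ∃ c : ℝ, (fun x : ℝ => x ^ 2 + c)^[n] 0 = 0 ∧
      (∀ j, 1 ≤ j → j < n → (fun x : ℝ => x ^ 2 + c)^[j] 0 ≠ 0) ∧ ¬ Doubling c) ∧
    ∀ (c : ℝ) (n : ℕ), 1 ≤ n → (fun x : ℝ => x ^ 2 + c)^[n] 0 = 0 → c ≠ 0 →
      (postcrit (X ^ 2 + C (c : ℂ))).Finite ∧ ∀ t ∉ postcrit (X ^ 2 + C (c : ℂ)),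
        (IntermediateGrowth (IMG (X ^ 2 + C (c : ℂ)) t) ↔ ¬ Doubling c) := by
  refine ⟨fun n hn => ?_, fun c n hn hc h0 => ⟨?_, Ctr.ctr_all c n hn hc h0⟩⟩
  · obtain ⟨c, h1, h2⟩ := (Air.sOrd n hn).1
    have hc : (fun x : ℝ => x ^ 2 + c)^[1] 0 < 0 := by
      obtain ⟨k, rfl⟩ : ∃ k, n = k + 1 := ⟨n - 1, by omega⟩
      have := h2 k (by omega) (by omega)
      rw [Function.iterate_succ_apply'] at h1
      simp only [Function.iterate_one]
      nlinarith
    refine ⟨c, h1, fun j a b => ?_, ?_⟩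
    · rcases a.eq_or_lt with rfl | a
      · exact hc.ne
      · exact (h2 j a b).ne'
    rintro ⟨g, g1, hg⟩
    have hd : 2 * g ∣ n := by
      by_contra h
      have := hg n n h h rfl
      rw [h1] at this
      simp at this
    have hle := Nat.le_of_dvd (by omega) hd
    have key : ∀ j, 2 ≤ j → j < n → ¬ 2 * g ∣ j → ¬ 1 ≡ j [MOD g] := fun j a b d e => by
      have := hg 1 j (fun h => by have := Nat.le_of_dvd one_pos h; omega) d e
      nlinarith [h2 j a b]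
    rcases g1.eq_or_lt with rfl | g2
    · exact key 3 (by omega) (by omega) (by omega) (Nat.modEq_one)
    · exact key (1 + g) (by omega) (by omega)
        (fun h => by have := Nat.le_of_dvd (by omega) h; omega) (by simp [Nat.ModEq])
  · obtain ⟨S, _, Q, rfl, -⟩ := Ctr.sReal c n hn hc
    refine (Set.finite_range fun s => (Q.pt s : ℂ)).subset fun z hz => ?_
    by_contra h
    exact (Ctr.post_Link Q z).2 (fun s e => h ⟨s, e.symm⟩) hz

end Pool.Agent.MP_61ef33_al.Old.D_Centers
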